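import Mathlib

/-!
# The Casimir relation for three commuting copies of `osp(1|2)`
-/

set_option autoImplicit false

namespace Pool.Agent.Q281.OS

section

variable {B : Type*} [Ring B] [Algebra ℂ B]

/-- the relation between the squares, in terms of `r_i` and `D_ij` -/
lemma cas_core {r1 r2 r3 D12 D13 D23 : B} {q : ℂ}
    (h11 : r1 * r1 = 1) (h22 : r2 * r2 = 1) (h33 : r3 * r3 = 1)
    (h21 : r2 * r1 = r1 * r2) (h31 : r3 * r1 = r1 * r3) (h32 : r3 * r2 = r2 * r3)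
    (a1 : r1 * D12 = -(D12 * r1)) (a2 : r2 * D12 = -(D12 * r2)) (a3 : r3 * D12 = D12 * r3)
    (b1 : r1 * D13 = -(D13 * r1)) (b2 : r2 * D13 = D13 * r2) (b3 : r3 * D13 = -(D13 * r3))
    (c1 : r1 * D23 = D23 * r1) (c2 : r2 * D23 = -(D23 * r2)) (c3 : r3 * D23 = -(D23 * r3))
    (e1 : D13 * D12 = D12 * D13 - ((2 * q) • (D23 * r1) - (1 / 4 : ℂ) • D23))
    (e2 : D23 * D12 = D12 * D23 + ((2 * q) • (D13 * r2) - (1 / 4 : ℂ) • D13))
    (e3 : D23 * D13 = D13 * D23 - ((2 * q) • (D12 * r3) - (1 / 4 : ℂ) • D12)) :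
    (q • (r1 + r2) - (1 / 8 : ℂ) • (r1 * r2) - D12 * r1) *
      (q • (r1 + r2) - (1 / 8 : ℂ) • (r1 * r2) - D12 * r1) +
    (q • (r2 + r3) - (1 / 8 : ℂ) • (r2 * r3) - D23 * r2) *
      (q • (r2 + r3) - (1 / 8 : ℂ) • (r2 * r3) - D23 * r2) +
    (q • (r1 + r3) - (1 / 8 : ℂ) • (r1 * r3) - D13 * (r1 * r2)) *
      (q • (r1 + r3) - (1 / 8 : ℂ) • (r1 * r3) - D13 * (r1 * r2)) =
    (q • (r2 * r3 + r1 * r3 + r1 * r2) - (1 / 4 : ℂ) • (r1 * (r2 * r3)) - D12 * (r1 * r3) -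
        D13 * r1 - D23 * (r1 * r2)) *
      (q • (r2 * r3 + r1 * r3 + r1 * r2) - (1 / 4 : ℂ) • (r1 * (r2 * r3)) - D12 * (r1 * r3) -
        D13 * r1 - D23 * (r1 * r2)) + (3 * q ^ 2 - 1 / 64) • (1 : B) := by
  have h11' : ∀ x, r1 * (r1 * x) = x := fun x => by rw [← mul_assoc, h11, one_mul]
  have h22' : ∀ x, r2 * (r2 * x) = x := fun x => by rw [← mul_assoc, h22, one_mul]
  have h33' : ∀ x, r3 * (r3 * x) = x := fun x => by rw [← mul_assoc, h33, one_mul]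
  have h21' : ∀ x, r2 * (r1 * x) = r1 * (r2 * x) := fun x => by
    rw [← mul_assoc, h21, mul_assoc]
  have h31' : ∀ x, r3 * (r1 * x) = r1 * (r3 * x) := fun x => by
    rw [← mul_assoc, h31, mul_assoc]
  have h32' : ∀ x, r3 * (r2 * x) = r2 * (r3 * x) := fun x => by
    rw [← mul_assoc, h32, mul_assoc]
  have a1' : ∀ x, r1 * (D12 * x) = -(D12 * (r1 * x)) := fun x => by
    rw [← mul_assoc, a1, neg_mul, mul_assoc]
  have a2' : ∀ x, r2 * (D12 * x) = -(D12 * (r2 * x)) := fun x => by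
    rw [← mul_assoc, a2, neg_mul, mul_assoc]
  have a3' : ∀ x, r3 * (D12 * x) = D12 * (r3 * x) := fun x => by
    rw [← mul_assoc, a3, mul_assoc]
  have b1' : ∀ x, r1 * (D13 * x) = -(D13 * (r1 * x)) := fun x => by
    rw [← mul_assoc, b1, neg_mul, mul_assoc]
  have b2' : ∀ x, r2 * (D13 * x) = D13 * (r2 * x) := fun x => by
    rw [← mul_assoc, b2, mul_assoc]
  have b3' : ∀ x, r3 * (D13 * x) = -(D13 * (r3 * x)) := fun x => by
    rw [← mul_assoc, b3, neg_mul, mul_assoc]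
  have c1' : ∀ x, r1 * (D23 * x) = D23 * (r1 * x) := fun x => by
    rw [← mul_assoc, c1, mul_assoc]
  have c2' : ∀ x, r2 * (D23 * x) = -(D23 * (r2 * x)) := fun x => by
    rw [← mul_assoc, c2, neg_mul, mul_assoc]
  have c3' : ∀ x, r3 * (D23 * x) = -(D23 * (r3 * x)) := fun x => by
    rw [← mul_assoc, c3, neg_mul, mul_assoc]
  have e1' : ∀ x, D13 * (D12 * x) =
      D12 * (D13 * x) - ((2 * q) • (D23 * (r1 * x)) - (1 / 4 : ℂ) • (D23 * x)) := fun x => by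
    rw [← mul_assoc, e1]; simp only [sub_mul, smul_mul_assoc, mul_assoc]
  have e2' : ∀ x, D23 * (D12 * x) =
      D12 * (D23 * x) + ((2 * q) • (D13 * (r2 * x)) - (1 / 4 : ℂ) • (D13 * x)) := fun x => by
    rw [← mul_assoc, e2]; simp only [sub_mul, add_mul, smul_mul_assoc, mul_assoc]
  have e3' : ∀ x, D23 * (D13 * x) =
      D13 * (D23 * x) - ((2 * q) • (D12 * (r3 * x)) - (1 / 4 : ℂ) • (D12 * x)) := fun x => by
    rw [← mul_assoc, e3]; simp only [sub_mul, smul_mul_assoc, mul_assoc]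
  simp only [mul_add, add_mul, mul_sub, sub_mul, smul_mul_assoc, mul_smul_comm, mul_assoc,
    h11, h22, h33, h21, h31, h32, a1, a2, a3, b1, b2, b3, c1, c2, c3, e1, e2, e3,
    h11', h22', h33', h21', h31', h32', a1', a2', a3', b1', b2', b3', c1', c2', c3', e1', e2', e3',
    mul_neg, neg_mul, mul_one, smul_add, smul_sub, smul_neg, smul_smul]
  module

end

end Pool.Agent.Q281.OS
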