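import Mathlib

/-!
# Threefold tensor centralisers of `osp(1|2)` and the quotient of the Bannai-Ito algebra
-/

set_option autoImplicit false

open scoped TensorProduct

namespace Pool.Agent.Q281.OS

/-- representations of `osp(1|2)` with the grading involution `R` -/
structure Rep (W : Type) [AddCommGroup W] [Module ℂ W] where
  H : Module.End ℂ W
  Ep : Module.End ℂ W
  Em : Module.End ℂ W
  Fp : Module.End ℂ W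
  Fm : Module.End ℂ W
  R : Module.End ℂ W
  HEp : H * Ep - Ep * H = Ep
  HEm : H * Em - Em * H = -Em
  EpEm : Ep * Em - Em * Ep = (2 : ℂ) • H
  HFp : H * Fp - Fp * H = (1 / 2 : ℂ) • Fp
  HFm : H * Fm - Fm * H = -((1 / 2 : ℂ) • Fm)
  FpFm : Fp * Fm + Fm * Fp = (1 / 2 : ℂ) • H
  EpFm : Ep * Fm - Fm * Ep = -Fp
  EmFp : Em * Fp - Fp * Em = -Fm
  FpFp : Fp * Fp + Fp * Fp = (1 / 2 : ℂ) • Ep
  FmFm : Fm * Fm + Fm * Fm = -((1 / 2 : ℂ) • Em)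
  RR : R * R = 1
  RH : R * H = H * R
  REp : R * Ep = Ep * R
  REm : R * Em = Em * R
  RFp : R * Fp = -(Fp * R)
  RFm : R * Fm = -(Fm * R)

/-- `ρ` is `[j]^+` with `n = 2 j`: it is irreducible of dimension `4 j + 1` and has a highest
weight vector `v` with `R v = v`, `H v = j v`, `F^+ v = E^+ v = 0` -/
structure IsTop (n : ℕ) {W : Type} [AddCommGroup W] [Module ℂ W] (ρ : Rep W) : Prop where
  dim : Module.finrank ℂ W = 2 * n + 1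
  irr : ∀ N : Submodule ℂ W, (∀ w ∈ N, ρ.H w ∈ N) → (∀ w ∈ N, ρ.Ep w ∈ N) →
    (∀ w ∈ N, ρ.Em w ∈ N) → (∀ w ∈ N, ρ.Fp w ∈ N) → (∀ w ∈ N, ρ.Fm w ∈ N) →
    (∀ w ∈ N, ρ.R w ∈ N) → N = ⊥ ∨ N = ⊤
  vec : ∃ v : W, v ≠ 0 ∧ ρ.R v = v ∧ ρ.H v = ((n : ℂ) / 2) • v ∧ ρ.Fp v = 0 ∧ ρ.Ep v = 0

section ops

variable {W : Type} [AddCommGroup W] [Module ℂ W]

/-- the operator `x ⊗ y ⊗ z` on `W ⊗ W ⊗ W` -/
noncomputable def t3 (x y z : Module.End ℂ W) : Module.End ℂ (W ⊗[ℂ] W ⊗[ℂ] W) :=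
  TensorProduct.map (TensorProduct.map x y) z

/-- `Q = [F^+, F^-] R + R / 8`, in terms of the images of `F^+`, `F^-`, `R` -/
noncomputable def QQ {B : Type} [Ring B] [Algebra ℂ B] (a b r : B) : B :=
  (a * b - b * a) * r + (1 / 8 : ℂ) • r

variable (ρ : Rep W)

noncomputable def Q1 : Module.End ℂ (W ⊗[ℂ] W ⊗[ℂ] W) := t3 (QQ ρ.Fp ρ.Fm ρ.R) 1 1

noncomputable def Q2 : Module.End ℂ (W ⊗[ℂ] W ⊗[ℂ] W) := t3 1 (QQ ρ.Fp ρ.Fm ρ.R) 1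

noncomputable def Q3 : Module.End ℂ (W ⊗[ℂ] W ⊗[ℂ] W) := t3 1 1 (QQ ρ.Fp ρ.Fm ρ.R)

/-- `Δ(Q) ⊗ 1` -/
noncomputable def Q12 : Module.End ℂ (W ⊗[ℂ] W ⊗[ℂ] W) :=
  QQ (t3 ρ.Fp ρ.R 1 + t3 1 ρ.Fp 1) (t3 ρ.Fm ρ.R 1 + t3 1 ρ.Fm 1) (t3 ρ.R ρ.R 1)

/-- `1 ⊗ Δ(Q)` -/
noncomputable def Q23 : Module.End ℂ (W ⊗[ℂ] W ⊗[ℂ] W) :=
  QQ (t3 1 ρ.Fp ρ.R + t3 1 1 ρ.Fp) (t3 1 ρ.Fm ρ.R + t3 1 1 ρ.Fm) (t3 1 ρ.R ρ.R)

/-- `(Δ ⊗ 1) Δ(Q)` -/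
noncomputable def Q4 : Module.End ℂ (W ⊗[ℂ] W ⊗[ℂ] W) :=
  QQ (t3 ρ.Fp ρ.R ρ.R + t3 1 ρ.Fp ρ.R + t3 1 1 ρ.Fp)
    (t3 ρ.Fm ρ.R ρ.R + t3 1 ρ.Fm ρ.R + t3 1 1 ρ.Fm) (t3 ρ.R ρ.R ρ.R)

/-- `Q_13` -/
noncomputable def Q13 : Module.End ℂ (W ⊗[ℂ] W ⊗[ℂ] W) :=
  ((t3 ρ.Fp ρ.R ρ.R + t3 1 1 ρ.Fp) * (t3 ρ.Fm ρ.R ρ.R + t3 1 1 ρ.Fm) -
    (t3 ρ.Fm ρ.R ρ.R + t3 1 1 ρ.Fm) * (t3 ρ.Fp ρ.R ρ.R + t3 1 1 ρ.Fp) + (1 / 8 : ℂ) • 1) *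
      t3 ρ.R 1 ρ.R

/-- the endomorphisms of `W ⊗ W ⊗ W` commuting with `(Δ ⊗ 1) Δ (g)`, `g ∈ osp(1|2)` -/
noncomputable def Cent : Subalgebra ℂ (Module.End ℂ (W ⊗[ℂ] W ⊗[ℂ] W)) :=
  Subalgebra.centralizer ℂ
    {t3 ρ.H 1 1 + t3 1 ρ.H 1 + t3 1 1 ρ.H, t3 ρ.Ep 1 1 + t3 1 ρ.Ep 1 + t3 1 1 ρ.Ep,
      t3 ρ.Em 1 1 + t3 1 ρ.Em 1 + t3 1 1 ρ.Em,
      t3 ρ.Fp ρ.R ρ.R + t3 1 ρ.Fp ρ.R + t3 1 1 ρ.Fp,
      t3 ρ.Fm ρ.R ρ.R + t3 1 ρ.Fm ρ.R + t3 1 1 ρ.Fm}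

end ops

/-- the generators of `I_3` -/
inductive Gen
  | X | Y | Z | oX | oY | oZ

/-- the free algebra on the generators of `I_3` -/
abbrev FA : Type := FreeAlgebra ℂ Gen

/-- the generators in the free algebra -/
def fg (g : Gen) : FA := FreeAlgebra.ι ℂ g

/-- `∏_{k=-2j}^{2j} (T - 2 k)`, `n = 2 j` -/
noncomputable def polyW (n : ℕ) : Polynomial ℂ :=
  ∏ k ∈ Finset.Icc (-(n : ℤ)) n, (Polynomial.X - Polynomial.C (2 * (k : ℂ)))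

/-- `∏_{k=-3j}^{3j} (T - (4j+1)(2j+1-2k) + 1)`, `n = 2 j`, `k = i - 3 j` -/
noncomputable def polyO (n : ℕ) : Polynomial ℂ :=
  ∏ i ∈ Finset.range (3 * n + 1), (Polynomial.X -
    Polynomial.C ((2 * (n : ℂ) + 1) * ((n : ℂ) + 1 - 2 * ((i : ℂ) - 3 * (n : ℂ) / 2)) - 1))

/-- `∏_{m ∈ M} (T - m)` -/
noncomputable def polyM (M : Finset ℤ) : Polynomial ℂ :=
  ∏ m ∈ M, (Polynomial.X - Polynomial.C (m : ℂ))

/-- the defining relations of `\overline I_3^{(j)}`, `n = 2 j`, with the set `M` for `M_j` -/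
inductive Rel (n : ℕ) (M : Finset ℤ) : FA → FA → Prop
  | cX (g : Gen) : Rel n M (fg .oX * fg g) (fg g * fg .oX)
  | cY (g : Gen) : Rel n M (fg .oY * fg g) (fg g * fg .oY)
  | cZ (g : Gen) : Rel n M (fg .oZ * fg g) (fg g * fg .oZ)
  | xy : Rel n M (fg .X * fg .Y + fg .Y * fg .X) (fg .X + fg .Y + fg .Z + fg .oZ)
  | xz : Rel n M (fg .X * fg .Z + fg .Z * fg .X) (fg .X + fg .Y + fg .Z + fg .oY)
  | yz : Rel n M (fg .Y * fg .Z + fg .Z * fg .Y) (fg .X + fg .Y + fg .Z + fg .oX)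
  | o1 : Rel n M (fg .oX) (fg .oY)
  | o2 : Rel n M (fg .oY) (fg .oZ)
  | pX : Rel n M (Polynomial.aeval (fg .X) (polyW n)) 0
  | pY : Rel n M (Polynomial.aeval (fg .Y) (polyW n)) 0
  | pZ : Rel n M (Polynomial.aeval (fg .Z) (polyW n)) 0
  | pO : Rel n M (Polynomial.aeval (fg .oX) (polyO n)) 0
  | mX : Rel n M (Polynomial.aeval (fg .X - fg .oX) (polyM M)) 0
  | mY : Rel n M (Polynomial.aeval (fg .Y - fg .oX) (polyM M)) 0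
  | mZ : Rel n M (Polynomial.aeval (fg .Z - fg .oX) (polyM M)) 0

/-- the algebra `\overline I_3^{(j)}`, `n = 2 j`, with the set `M` for `M_j` -/
abbrev Ibar (n : ℕ) (M : Finset ℤ) : Type := RingQuot (Rel n M)

/-- its generators -/
noncomputable def gen (n : ℕ) (M : Finset ℤ) (g : Gen) : Ibar n M :=
  RingQuot.mkAlgHom ℂ (Rel n M) (fg g)

/-- the images of the generators under `(π_j ⊗ π_j ⊗ π_j) ∘ Φ` -/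
noncomputable def img {W : Type} [AddCommGroup W] [Module ℂ W] (ρ : Rep W) :
    Gen → Module.End ℂ (W ⊗[ℂ] W ⊗[ℂ] W)
  | .X => -((4 : ℂ) • Q12 ρ) + (1 / 2 : ℂ) • 1
  | .Y => -((4 : ℂ) • Q23 ρ) + (1 / 2 : ℂ) • 1
  | .Z => -((4 : ℂ) • Q13 ρ) + (1 / 2 : ℂ) • 1
  | .oX => (32 : ℂ) • (Q1 ρ * Q2 ρ + Q3 ρ * Q4 ρ) - 1
  | .oY => (32 : ℂ) • (Q2 ρ * Q3 ρ + Q1 ρ * Q4 ρ) - 1
  | .oZ => (32 : ℂ) • (Q1 ρ * Q3 ρ + Q2 ρ * Q4 ρ) - 1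

/-- the assertion of Q1 for one representation `ρ = [j]^+`, `n = 2 j`, with `M` in the role of
`M_j`: the map on generators extends to an algebra isomorphism `\overline I_3^{(j)} → C_j` -/
def Conj (n : ℕ) (M : Finset ℤ) {W : Type} [AddCommGroup W] [Module ℂ W] (ρ : Rep W) : Prop :=
  ∃ ψ : Ibar n M ≃ₐ[ℂ] Cent ρ,
    ∀ g, ((ψ (gen n M g) : Cent ρ) : Module.End ℂ (W ⊗[ℂ] W ⊗[ℂ] W)) = img ρ g

/-- Write `n = 2 j`, `ℓ = L / 2`. The four families of values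
`-2 c ℓ - 2 k - d` (`0 ≤ k ≤ 2j`, `|j-k| ≤ ℓ ≤ j+k`),
`2 c ℓ - 2 k - d` (`0 ≤ k ≤ 2j`, `|j-k|+1 ≤ ℓ ≤ j+k`),
`-2 c ℓ + 2 k - (d - 2)` (`0 ≤ k ≤ 2j-1`, `λ_k ≤ ℓ ≤ j+k`),
`2 c ℓ + 2 k - (d - 2)` (`0 ≤ k ≤ 2j-1`, `λ_k ≤ ℓ ≤ j+k+1`),
`ℓ` in steps by 1 from its lower bound. -/
noncomputable def Mset (c d : ℤ) (n : ℕ) : Finset ℤ :=
  ((Finset.range (n + 1)).biUnion fun k =>
    ((Finset.Icc (((n : ℤ) - 2 * k).natAbs : ℤ) (n + 2 * k)).filter fun L : ℤ => L % 2 = (n : ℤ) % 2).image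
      fun L => -(c * L) - 2 * k - d) ∪
  ((Finset.range (n + 1)).biUnion fun k =>
    ((Finset.Icc ((((n : ℤ) - 2 * k).natAbs : ℤ) + 2) (n + 2 * k)).filter fun L : ℤ => L % 2 = (n : ℤ) % 2).image
      fun L => c * L - 2 * k - d) ∪
  ((Finset.range n).biUnion fun k =>
    ((Finset.Icc (if 2 * (k : ℤ) < n then (n : ℤ) - 2 * k else 2 * k - n + 2)
      (n + 2 * k)).filter fun L : ℤ => L % 2 = (n : ℤ) % 2).image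
      fun L => -(c * L) + 2 * k - (d - 2)) ∪
  ((Finset.range n).biUnion fun k =>
    ((Finset.Icc (if 2 * (k : ℤ) < n then (n : ℤ) - 2 * k else 2 * k - n + 2)
      (n + 2 * k + 2)).filter fun L : ℤ => L % 2 = (n : ℤ) % 2).image
      fun L => c * L + 2 * k - (d - 2))

/-- the set `M_j` with the numbers printed in the problem (`6 ℓ = 3 L` and the constant `5`) -/
noncomputable def Mprinted (n : ℕ) : Finset ℤ := Mset 3 5 n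

/-- the set with the numbers for general `j`, the values of `X - ω` computed from the
decomposition of the tensor product: `2 (4j+1) ℓ = (4j+1) L` and the constant
`(4j+1)(2j+1) - 1`; for `j = 1/2` it is the printed set -/
noncomputable def Mgeneral (n : ℕ) : Finset ℤ := Mset (2 * n + 1) ((2 * n + 1) * (n + 1) - 1) n

end Pool.Agent.Q281.OS
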