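import Mathlib
import Pool.Agent.Q281.OS.Defs
import Pool.Agent.Q281.OS.Cas

set_option autoImplicit false
set_option linter.unusedSimpArgs false

open scoped TensorProduct

namespace Pool.Agent.Q281.OS

/-- trilinear multiplicative maps -/
structure Tri {A B : Type} [Ring A] [Algebra ℂ A] [Ring B] [Algebra ℂ B]
    (t : A → A → A → B) : Prop where
  mul : ∀ x y z x' y' z', t x y z * t x' y' z' = t (x * x') (y * y') (z * z')
  one : t 1 1 1 = 1
  smul1 : ∀ (c : ℂ) x y z, t (c • x) y z = c • t x y z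
  smul2 : ∀ (c : ℂ) x y z, t x (c • y) z = c • t x y z
  smul3 : ∀ (c : ℂ) x y z, t x y (c • z) = c • t x y z
  add1 : ∀ x x' y z, t (x + x') y z = t x y z + t x' y z
  add2 : ∀ x y y' z, t x (y + y') z = t x y z + t x y' z
  add3 : ∀ x y z z', t x y (z + z') = t x y z + t x y z'

variable {A B : Type} [Ring A] [Algebra ℂ A] [Ring B] [Algebra ℂ B] {t : A → A → A → B}

lemma Tri.neg1 (h : Tri t) (x y z : A) : t (-x) y z = -t x y z := by
  have h := h.smul1 (-1) x y z
  rwa [neg_one_smul, neg_one_smul] at h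

lemma Tri.neg2 (h : Tri t) (x y z : A) : t x (-y) z = -t x y z := by
  have h := h.smul2 (-1) x y z
  rwa [neg_one_smul, neg_one_smul] at h

lemma Tri.neg3 (h : Tri t) (x y z : A) : t x y (-z) = -t x y z := by
  have h := h.smul3 (-1) x y z
  rwa [neg_one_smul, neg_one_smul] at h

lemma Tri.sub1 (h : Tri t) (x x' y z : A) : t (x - x') y z = t x y z - t x' y z := by
  rw [sub_eq_add_neg, h.add1, h.neg1, ← sub_eq_add_neg]

lemma Tri.sub2 (h : Tri t) (x y y' z : A) : t x (y - y') z = t x y z - t x y' z := by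
  rw [sub_eq_add_neg, h.add2, h.neg2, ← sub_eq_add_neg]

lemma Tri.sub3 (h : Tri t) (x y z z' : A) : t x y (z - z') = t x y z - t x y z' := by
  rw [sub_eq_add_neg, h.add3, h.neg3, ← sub_eq_add_neg]

section id

variable {a b r : A} {q : ℂ}

/-- the Casimir relation -/
theorem casimir (ht : Tri t) (rr : r * r = 1) (ra : r * a = -(a * r)) (rb : r * b = -(b * r))
    (hq : QQ a b r = q • 1) :
    QQ (t a r 1 + t 1 a 1) (t b r 1 + t 1 b 1) (t r r 1) ^ 2 +
    QQ (t 1 a r + t 1 1 a) (t 1 b r + t 1 1 b) (t 1 r r) ^ 2 +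
    (((t a r r + t 1 1 a) * (t b r r + t 1 1 b) -
      (t b r r + t 1 1 b) * (t a r r + t 1 1 a) + (1 / 8 : ℂ) • 1) * t r 1 r) ^ 2 =
    QQ (t a r r + t 1 a r + t 1 1 a) (t b r r + t 1 b r + t 1 1 b) (t r r r) ^ 2 +
      (3 * q ^ 2 - 1 / 64) • 1 := by
  have ba : b * a = a * b - q • r + (1 / 8 : ℂ) • 1 := by
    have h : QQ a b r * r = q • r := by rw [hq, smul_mul_assoc, one_mul]
    rw [QQ, add_mul, mul_assoc, rr, mul_one, smul_mul_assoc, rr] at h
    rw [← h]; abel
  have rr' : ∀ x, r * (r * x) = x := fun x => by rw [← mul_assoc, rr, one_mul]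
  have ra' : ∀ x, r * (a * x) = -(a * (r * x)) := fun x => by
    rw [← mul_assoc, ra, neg_mul, mul_assoc]
  have rb' : ∀ x, r * (b * x) = -(b * (r * x)) := fun x => by
    rw [← mul_assoc, rb, neg_mul, mul_assoc]
  have ba' : ∀ x, b * (a * x) = a * (b * x) - q • (r * x) + (1 / 8 : ℂ) • x := fun x => by
    rw [← mul_assoc, ba]; simp only [add_mul, sub_mul, smul_mul_assoc, mul_assoc, one_mul]
  set r1 := t r 1 1 with hr1
  set r2 := t 1 r 1 with hr2
  set r3 := t 1 1 r with hr3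
  set D12 := (2 : ℂ) • (t a b 1 - t b a 1) with hD12
  set D13 := (2 : ℂ) • (t a 1 b - t b 1 a) with hD13
  set D23 := (2 : ℂ) • (t 1 a b - t 1 b a) with hD23
  have k12 : QQ (t a r 1 + t 1 a 1) (t b r 1 + t 1 b 1) (t r r 1) =
      q • (r1 + r2) - (1 / 8 : ℂ) • (r1 * r2) - D12 * r1 := by
    simp only [QQ, hr1, hr2, hD12, mul_add, add_mul, mul_sub, sub_mul, smul_mul_assoc,
      mul_smul_comm, ht.mul, mul_one, one_mul, mul_assoc, rr, ra, rb, ba, rr', ra', rb', ba',
      ht.add1, ht.add2, ht.sub1, ht.sub2, ht.neg1, ht.neg2, ht.smul1, ht.smul2, mul_neg, neg_mul]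
    module
  have k23 : QQ (t 1 a r + t 1 1 a) (t 1 b r + t 1 1 b) (t 1 r r) =
      q • (r2 + r3) - (1 / 8 : ℂ) • (r2 * r3) - D23 * r2 := by
    simp only [QQ, hr3, hr2, hD23, mul_add, add_mul, mul_sub, sub_mul, smul_mul_assoc,
      mul_smul_comm, ht.mul, mul_one, one_mul, mul_assoc, rr, ra, rb, ba, rr', ra', rb', ba',
      ht.add3, ht.add2, ht.sub3, ht.sub2, ht.neg3, ht.neg2, ht.smul3, ht.smul2, mul_neg, neg_mul]
    module
  have k13 : ((t a r r + t 1 1 a) * (t b r r + t 1 1 b) -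
      (t b r r + t 1 1 b) * (t a r r + t 1 1 a) + (1 / 8 : ℂ) • 1) * t r 1 r =
      q • (r1 + r3) - (1 / 8 : ℂ) • (r1 * r3) - D13 * (r1 * r2) := by
    simp only [hr1, hr3, hr2, hD13, mul_add, add_mul, mul_sub, sub_mul, smul_mul_assoc,
      mul_smul_comm, ht.mul, mul_one, one_mul, mul_assoc, rr, ra, rb, ba, rr', ra', rb', ba',
      ht.add3, ht.add1, ht.sub3, ht.sub1, ht.neg3, ht.neg1, ht.smul3, ht.smul1, mul_neg, neg_mul]
    module
  have k4 : QQ (t a r r + t 1 a r + t 1 1 a) (t b r r + t 1 b r + t 1 1 b) (t r r r) =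
      q • (r2 * r3 + r1 * r3 + r1 * r2) - (1 / 4 : ℂ) • (r1 * (r2 * r3)) - D12 * (r1 * r3) -
        D13 * r1 - D23 * (r1 * r2) := by
    simp only [QQ, hr1, hr3, hr2, hD12, hD23, hD13, mul_add, add_mul, mul_sub, sub_mul,
      smul_mul_assoc, mul_smul_comm, ht.mul, mul_one, one_mul, mul_assoc, rr, ra, rb, ba, rr',
      ra', rb', ba', ht.add3, ht.add2, ht.add1, ht.sub3, ht.sub2, ht.sub1, ht.neg3, ht.neg2,
      ht.neg1, ht.smul3, ht.smul2, ht.smul1, mul_neg, neg_mul]
    module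
  rw [k12, k23, k13, k4]
  simp only [pow_two q, pow_two (_ : B)]
  rw [← pow_two q]
  apply cas_core
  · simp only [hr1, ht.mul, rr, mul_one, ht.one]
  · simp only [hr2, ht.mul, rr, mul_one, ht.one]
  · simp only [hr3, ht.mul, rr, mul_one, ht.one]
  · simp only [hr1, hr2, ht.mul, mul_one, one_mul]
  · simp only [hr1, hr3, ht.mul, mul_one, one_mul]
  · simp only [hr3, hr2, ht.mul, mul_one, one_mul]
  all_goals
    simp only [hr1, hr3, hr2, hD12, hD23, hD13, mul_add, add_mul, mul_sub, sub_mul,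
      smul_mul_assoc, mul_smul_comm, ht.mul, mul_one, one_mul, mul_assoc, rr, ra, rb, ba, rr',
      ra', rb', ba', ht.add3, ht.add2, ht.add1, ht.sub3, ht.sub2, ht.sub1, ht.neg3, ht.neg2,
      ht.neg1, ht.smul3, ht.smul2, ht.smul1, mul_neg, neg_mul]
    try module

end id

lemma tri_t3 {W : Type} [AddCommGroup W] [Module ℂ W] : Tri (t3 (W := W)) where
  mul x y z x' y' z' := by
    unfold t3
    rw [← TensorProduct.map_mul, ← TensorProduct.map_mul]
  one := by
    unfold t3
    rw [TensorProduct.map_one, TensorProduct.map_one]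
  smul1 c x y z := by
    unfold t3
    rw [TensorProduct.map_smul_left, TensorProduct.map_smul_left]
  smul2 c x y z := by
    unfold t3
    rw [TensorProduct.map_smul_right, TensorProduct.map_smul_left]
  smul3 c x y z := by
    unfold t3
    rw [TensorProduct.map_smul_right]
  add1 x x' y z := by
    unfold t3
    rw [TensorProduct.map_add_left, TensorProduct.map_add_left]
  add2 x y y' z := by
    unfold t3
    rw [TensorProduct.map_add_right, TensorProduct.map_add_left]
  add3 x y z z' := by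
    unfold t3
    rw [TensorProduct.map_add_right]

end Pool.Agent.Q281.OS
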