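import Mathlib
import Pool.Agent.Q281.OS.Defs
import Pool.Agent.Q281.OS.Cas
import Pool.Agent.Q281.OS.Slot

set_option autoImplicit false

open scoped TensorProduct

namespace Pool.Agent.Q281.OS

section scalar

variable {W : Type} [AddCommGroup W] [Module ℂ W] (ρ : Rep W)

lemma Rep.Ep_eq : ρ.Ep = (4 : ℂ) • (ρ.Fp * ρ.Fp) := by
  have h := congrArg (fun x => (2 : ℂ) • x) ρ.FpFp
  simp only [smul_smul] at h
  norm_num at h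
  rw [← h]
  module

lemma Rep.Em_eq : ρ.Em = -((4 : ℂ) • (ρ.Fm * ρ.Fm)) := by
  have h := congrArg (fun x => -((2 : ℂ) • x)) ρ.FmFm
  simp only [smul_neg, smul_smul, neg_neg] at h
  norm_num at h
  rw [← h]
  module

lemma Rep.H_eq : ρ.H = (2 : ℂ) • (ρ.Fp * ρ.Fm + ρ.Fm * ρ.Fp) := by
  rw [ρ.FpFm, smul_smul]
  norm_num

lemma Rep.aab : ρ.Fp * (ρ.Fp * ρ.Fm) - ρ.Fm * (ρ.Fp * ρ.Fp) = -((1 / 4 : ℂ) • ρ.Fp) := by
  have h := ρ.EpFm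
  rw [ρ.Ep_eq, smul_mul_assoc, mul_smul_comm, mul_assoc] at h
  have h2 := congrArg (fun x => (1 / 4 : ℂ) • x) h
  simp only [smul_sub, smul_smul, smul_neg] at h2
  norm_num at h2
  rw [← h2]

lemma Rep.abb : ρ.Fp * (ρ.Fm * ρ.Fm) - ρ.Fm * (ρ.Fm * ρ.Fp) = -((1 / 4 : ℂ) • ρ.Fm) := by
  have h := ρ.EmFp
  rw [ρ.Em_eq, neg_mul, mul_neg, smul_mul_assoc, mul_smul_comm, mul_assoc] at h
  have h2 := congrArg (fun x => (1 / 4 : ℂ) • x) h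
  simp only [smul_sub, smul_smul, smul_neg] at h2
  norm_num at h2
  rw [← h2]; abel

lemma Rep.Q_Fp : QQ ρ.Fp ρ.Fm ρ.R * ρ.Fp = ρ.Fp * QQ ρ.Fp ρ.Fm ρ.R := by
  have h : QQ ρ.Fp ρ.Fm ρ.R * ρ.Fp - ρ.Fp * QQ ρ.Fp ρ.Fm ρ.R =
      -((ρ.Fp * (ρ.Fp * ρ.Fm) - ρ.Fm * (ρ.Fp * ρ.Fp) + (1 / 4 : ℂ) • ρ.Fp) * ρ.R) := by
    simp only [QQ, add_mul, sub_mul, mul_add, mul_sub, mul_assoc, ρ.RFp, smul_mul_assoc,
      mul_smul_comm, mul_neg, smul_neg]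
    module
  rw [ρ.aab, neg_add_cancel, zero_mul, neg_zero] at h
  exact sub_eq_zero.1 h

lemma Rep.Q_Fm : QQ ρ.Fp ρ.Fm ρ.R * ρ.Fm = ρ.Fm * QQ ρ.Fp ρ.Fm ρ.R := by
  have h : QQ ρ.Fp ρ.Fm ρ.R * ρ.Fm - ρ.Fm * QQ ρ.Fp ρ.Fm ρ.R =
      -((ρ.Fp * (ρ.Fm * ρ.Fm) - ρ.Fm * (ρ.Fm * ρ.Fp) + (1 / 4 : ℂ) • ρ.Fm) * ρ.R) := by
    simp only [QQ, add_mul, sub_mul, mul_add, mul_sub, mul_assoc, ρ.RFm, smul_mul_assoc,
      mul_smul_comm, mul_neg, smul_neg]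
    module
  rw [ρ.abb, neg_add_cancel, zero_mul, neg_zero] at h
  exact sub_eq_zero.1 h

lemma Rep.Q_R : QQ ρ.Fp ρ.Fm ρ.R * ρ.R = ρ.R * QQ ρ.Fp ρ.Fm ρ.R := by
  have e1 : ∀ x, ρ.R * (ρ.Fp * x) = -(ρ.Fp * (ρ.R * x)) := fun x => by
    rw [← mul_assoc, ρ.RFp, neg_mul, mul_assoc]
  have e2 : ∀ x, ρ.R * (ρ.Fm * x) = -(ρ.Fm * (ρ.R * x)) := fun x => by
    rw [← mul_assoc, ρ.RFm, neg_mul, mul_assoc]
  simp only [QQ, add_mul, sub_mul, mul_add, mul_sub, mul_assoc, e1, e2, smul_mul_assoc,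
      mul_smul_comm, mul_neg, neg_neg]

/-- `Q` acts on `[j]^+` by the scalar `(4 j + 1) / 8` -/
theorem IsTop.Q_eq {n : ℕ} {ρ : Rep W} (h : IsTop n ρ) :
    QQ ρ.Fp ρ.Fm ρ.R = ((n : ℂ) / 4 + 1 / 8) • 1 := by
  set Q := QQ ρ.Fp ρ.Fm ρ.R with hQ
  set q : ℂ := (n : ℂ) / 4 + 1 / 8 with hq
  let N : Submodule ℂ W := LinearMap.ker (Q - q • 1)
  have hN : ∀ w, w ∈ N ↔ Q w = q • w := fun w => by
    rw [LinearMap.mem_ker, LinearMap.sub_apply, sub_eq_zero]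
    rfl
  have key : ∀ T : Module.End ℂ W, Q * T = T * Q → ∀ w ∈ N, T w ∈ N := fun T hT w hw => by
    rw [hN] at hw ⊢
    have h1 := LinearMap.congr_fun hT w
    rw [Module.End.mul_apply, Module.End.mul_apply, hw, map_smul] at h1
    exact h1
  have hFp : Q * ρ.Fp = ρ.Fp * Q := ρ.Q_Fp
  have hFm : Q * ρ.Fm = ρ.Fm * Q := ρ.Q_Fm
  have hR : Q * ρ.R = ρ.R * Q := ρ.Q_R
  have hFp' : Commute Q ρ.Fp := hFp
  have hFm' : Commute Q ρ.Fm := hFm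
  have hEp : Commute Q ρ.Ep := by
    rw [ρ.Ep_eq]; exact (hFp'.mul_right hFp').smul_right _
  have hEm : Commute Q ρ.Em := by
    rw [ρ.Em_eq]; exact ((hFm'.mul_right hFm').smul_right _).neg_right
  have hH : Commute Q ρ.H := by
    rw [ρ.H_eq]; exact ((hFp'.mul_right hFm').add_right (hFm'.mul_right hFp')).smul_right _
  obtain ⟨v, hv0, hRv, hHv, hFv, -⟩ := h.vec
  have hab : ρ.Fp (ρ.Fm v) = ((n : ℂ) / 4) • v := by
    have h1 := LinearMap.congr_fun ρ.FpFm v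
    rw [LinearMap.add_apply, Module.End.mul_apply, Module.End.mul_apply, hFv, map_zero, add_zero,
      LinearMap.smul_apply, hHv, smul_smul] at h1
    rw [h1]; congr 1; ring
  have hvN : v ∈ N := by
    rw [hN]
    have h1 : Q v = ρ.Fp (ρ.Fm v) - ρ.Fm (ρ.Fp v) + (1 / 8 : ℂ) • v := by
      rw [hQ, QQ, LinearMap.add_apply, Module.End.mul_apply, hRv, LinearMap.sub_apply,
        LinearMap.smul_apply, hRv]
      rfl
    rw [h1, hFv, map_zero, sub_zero, hab, hq, add_smul]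
  have hNt : N = ⊤ := by
    refine (h.irr N (key _ hH) (key _ hEp) (key _ hEm) (key _ hFp) (key _ hFm)
      (key _ hR)).resolve_left fun h0 => ?_
    rw [h0] at hvN
    exact hv0 ((Submodule.mem_bot ℂ).1 hvN)
  ext w
  have : w ∈ N := by rw [hNt]; trivial
  rw [hN] at this
  rw [this]
  rfl

end scalar

end Pool.Agent.Q281.OS
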