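import Mathlib
import Pool.Agent.Q281.OS.Defs

/-!
# An explicit model of `[j]^+`
-/

set_option autoImplicit false
set_option linter.unusedSimpArgs false

namespace Pool.Agent.Q281.OS

section mk

variable {W : Type} [AddCommGroup W] [Module ℂ W]

/-- a representation from `F^+`, `F^-`, `R` and `H` -/
noncomputable def Rep.ofF (a b r h : Module.End ℂ W) (h1 : h * a = a * h + (1 / 2 : ℂ) • a)
    (h2 : h * b = b * h - (1 / 2 : ℂ) • b) (h3 : b * a = (1 / 2 : ℂ) • h - a * b)
    (h4 : r * r = 1) (h5 : r * h = h * r) (h6 : r * a = -(a * r)) (h7 : r * b = -(b * r)) :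
    Rep W where
  H := h
  Ep := (4 : ℂ) • (a * a)
  Em := -((4 : ℂ) • (b * b))
  Fp := a
  Fm := b
  R := r
  HEp := by
    have h1' : ∀ x, h * (a * x) = a * (h * x) + (1 / 2 : ℂ) • (a * x) := fun x => by
      rw [← mul_assoc, h1, add_mul, smul_mul_assoc, mul_assoc]
    simp only [mul_smul_comm, smul_mul_assoc, mul_assoc, h1', h1, mul_add]
    module
  HEm := by
    have h2' : ∀ x, h * (b * x) = b * (h * x) - (1 / 2 : ℂ) • (b * x) := fun x => by
      rw [← mul_assoc, h2, sub_mul, smul_mul_assoc, mul_assoc]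
    simp only [mul_smul_comm, smul_mul_assoc, mul_assoc, h2', h2, mul_sub, mul_neg, neg_mul]
    module
  EpEm := by
    have h2' : ∀ x, h * (b * x) = b * (h * x) - (1 / 2 : ℂ) • (b * x) := fun x => by
      rw [← mul_assoc, h2, sub_mul, smul_mul_assoc, mul_assoc]
    have h1' : ∀ x, h * (a * x) = a * (h * x) + (1 / 2 : ℂ) • (a * x) := fun x => by
      rw [← mul_assoc, h1, add_mul, smul_mul_assoc, mul_assoc]
    have h3' : ∀ x, b * (a * x) = (1 / 2 : ℂ) • (h * x) - a * (b * x) := fun x => by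
      rw [← mul_assoc, h3, sub_mul, smul_mul_assoc, mul_assoc]
    simp only [mul_smul_comm, smul_mul_assoc, mul_assoc, h2', h2, h1', h1, h3', h3, mul_sub,
      mul_add, mul_neg, neg_mul]
    module
  HFp := by rw [h1]; abel
  HFm := by rw [h2]; abel
  FpFm := by rw [h3]; abel
  EpFm := by
    have h1' : ∀ x, h * (a * x) = a * (h * x) + (1 / 2 : ℂ) • (a * x) := fun x => by
      rw [← mul_assoc, h1, add_mul, smul_mul_assoc, mul_assoc]
    have h3' : ∀ x, b * (a * x) = (1 / 2 : ℂ) • (h * x) - a * (b * x) := fun x => by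
      rw [← mul_assoc, h3, sub_mul, smul_mul_assoc, mul_assoc]
    simp only [mul_smul_comm, smul_mul_assoc, mul_assoc, h1', h1, h3', h3, mul_sub,
      mul_add, mul_neg, neg_mul]
    module
  EmFp := by
    have h2' : ∀ x, h * (b * x) = b * (h * x) - (1 / 2 : ℂ) • (b * x) := fun x => by
      rw [← mul_assoc, h2, sub_mul, smul_mul_assoc, mul_assoc]
    have h3' : ∀ x, b * (a * x) = (1 / 2 : ℂ) • (h * x) - a * (b * x) := fun x => by
      rw [← mul_assoc, h3, sub_mul, smul_mul_assoc, mul_assoc]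
    simp only [mul_smul_comm, smul_mul_assoc, mul_assoc, h2', h2, h3', h3, mul_sub,
      mul_add, mul_neg, neg_mul]
    module
  FpFp := by module
  FmFm := by module
  RR := h4
  RH := h5
  REp := by
    have h6' : ∀ x, r * (a * x) = -(a * (r * x)) := fun x => by
      rw [← mul_assoc, h6, neg_mul, mul_assoc]
    simp only [mul_smul_comm, smul_mul_assoc, mul_assoc, h6', h6, mul_neg, neg_neg]
  REm := by
    have h7' : ∀ x, r * (b * x) = -(b * (r * x)) := fun x => by
      rw [← mul_assoc, h7, neg_mul, mul_assoc]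
    simp only [mul_smul_comm, smul_mul_assoc, mul_assoc, h7', h7, mul_neg, neg_neg, neg_mul]
  RFp := h6
  RFm := h7

end mk

section model

/-- the coefficients of `F^+` -/
noncomputable def cc (n i : ℕ) : ℂ :=
  if i % 2 = 0 then -(i : ℂ) / 8 else (2 * (n : ℂ) - i + 1) / 8

lemma cc_zero (n : ℕ) : cc n 0 = 0 := by simp [cc]

lemma cc_last (n : ℕ) : cc n (2 * n + 1) = 0 := by
  have : (2 * n + 1) % 2 = 1 := by omega
  simp [cc, this]

lemma cc_add (n i : ℕ) : cc n (i + 1) + cc n i = ((n : ℂ) - i) / 4 := by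
  unfold cc
  rcases Nat.mod_two_eq_zero_or_one i with h | h
  · have h' : (i + 1) % 2 = 1 := by omega
    rw [if_neg (by omega), if_pos h]
    push_cast; ring
  · have h' : (i + 1) % 2 = 0 := by omega
    rw [if_pos h', if_neg (by omega)]
    push_cast; ring

lemma cc_ne (n i : ℕ) (h0 : 0 < i) (h1 : i < 2 * n + 1) : cc n i ≠ 0 := by
  unfold cc
  rcases Nat.mod_two_eq_zero_or_one i with h | h
  · rw [if_pos h]
    have : (i : ℂ) ≠ 0 := by exact_mod_cast h0.ne'
    simp [this]
  · rw [if_neg (by omega)]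
    have h2 : (2 * (n : ℂ) - i + 1) = ((2 * n + 1 - i : ℕ) : ℂ) := by
      rw [Nat.cast_sub h1.le]; push_cast; ring
    rw [h2]
    have h3 : ((2 * n + 1 - i : ℕ) : ℂ) ≠ 0 := by
      exact_mod_cast (by omega : 2 * n + 1 - i ≠ 0)
    exact div_ne_zero h3 (by norm_num)

/-- the space of the model -/
abbrev Wn (n : ℕ) : Type := Fin (2 * n + 1) → ℂ

/-- the coordinates, extended by zero -/
noncomputable def co (n : ℕ) (f : Wn n) (k : ℕ) : ℂ := if h : k < 2 * n + 1 then f ⟨k, h⟩ else 0

lemma co_fin (n : ℕ) (f : Wn n) (i : Fin (2 * n + 1)) : co n f i = f i := by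
  unfold co; rw [dif_pos i.2]

lemma co_ge (n : ℕ) (f : Wn n) (k : ℕ) (h : 2 * n + 1 ≤ k) : co n f k = 0 := by
  simp [co, Nat.not_lt.2 h]

lemma co_lt (n : ℕ) (f : Wn n) (k : ℕ) (h : k < 2 * n + 1) : co n f k = f ⟨k, h⟩ := by
  simp [co, h]

lemma co_add (n : ℕ) (f g : Wn n) (k : ℕ) : co n (f + g) k = co n f k + co n g k := by
  unfold co; split_ifs <;> simp

lemma co_sub (n : ℕ) (f g : Wn n) (k : ℕ) : co n (f - g) k = co n f k - co n g k := by
  unfold co; split_ifs <;> simp

lemma co_smul (n : ℕ) (c : ℂ) (f : Wn n) (k : ℕ) : co n (c • f) k = c * co n f k := by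
  unfold co; split_ifs <;> simp

/-- `F^+` -/
noncomputable def mFp (n : ℕ) : Module.End ℂ (Wn n) where
  toFun f := fun i => cc n (i + 1) * co n f (i + 1)
  map_add' f g := by funext i; simp only [co_add, Pi.add_apply]; ring
  map_smul' c f := by
    funext i; simp only [co_smul, Pi.smul_apply, smul_eq_mul, RingHom.id_apply]; ring

/-- `F^-` -/
noncomputable def mFm (n : ℕ) : Module.End ℂ (Wn n) where
  toFun f := fun i => if (i : ℕ) = 0 then 0 else co n f (i - 1)
  map_add' f g := by funext i; simp only [co_add, Pi.add_apply]; split_ifs <;> simp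
  map_smul' c f := by
    funext i; simp only [co_smul, Pi.smul_apply, smul_eq_mul, RingHom.id_apply]
    split_ifs <;> simp

/-- diagonal operators -/
noncomputable def mD (n : ℕ) (d : ℕ → ℂ) : Module.End ℂ (Wn n) where
  toFun f := fun i => d i * f i
  map_add' f g := by funext i; simp only [Pi.add_apply]; ring
  map_smul' c f := by
    funext i; simp only [Pi.smul_apply, smul_eq_mul, RingHom.id_apply]; ring

lemma co_mFp (n : ℕ) (f : Wn n) (k : ℕ) : co n (mFp n f) k = cc n (k + 1) * co n f (k + 1) := by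
  rcases lt_or_ge k (2 * n + 1) with h | h
  · rw [co_lt _ _ _ h]; rfl
  · rw [co_ge _ _ _ h, co_ge _ _ _ (by omega), mul_zero]

lemma co_mFm_succ (n : ℕ) (f : Wn n) (k : ℕ) (h : k + 1 < 2 * n + 1) :
    co n (mFm n f) (k + 1) = co n f k := by
  rw [co_lt _ _ _ h]
  change (if k + 1 = 0 then 0 else co n f (k + 1 - 1)) = _
  rw [if_neg (by omega), Nat.add_sub_cancel]

lemma co_mFm_zero (n : ℕ) (f : Wn n) : co n (mFm n f) 0 = 0 := by
  rw [co_lt _ _ _ (by omega)]
  rfl

lemma co_mD (n : ℕ) (d : ℕ → ℂ) (f : Wn n) (k : ℕ) : co n (mD n d f) k = d k * co n f k := by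
  rcases lt_or_ge k (2 * n + 1) with h | h
  · rw [co_lt _ _ _ h, co_lt _ _ _ h]; rfl
  · rw [co_ge _ _ _ h, co_ge _ _ _ h, mul_zero]

lemma co_ext (n : ℕ) {f g : Wn n} (h : ∀ k, k < 2 * n + 1 → co n f k = co n g k) : f = g := by
  funext i
  have := h i i.2
  rwa [co_fin, co_fin] at this

lemma co_FpFm (n : ℕ) (f : Wn n) (k : ℕ) (hk : k < 2 * n + 1) :
    co n (mFp n (mFm n f)) k = cc n (k + 1) * co n f k := by
  rw [co_mFp]
  rcases lt_or_ge (k + 1) (2 * n + 1) with h | h
  · rw [co_mFm_succ _ _ _ h]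
  · have : k + 1 = 2 * n + 1 := by omega
    rw [this, cc_last, zero_mul, zero_mul]

lemma co_FmFp (n : ℕ) (f : Wn n) (k : ℕ) (hk : k < 2 * n + 1) :
    co n (mFm n (mFp n f)) k = cc n k * co n f k := by
  rcases k with _ | k
  · rw [co_mFm_zero, cc_zero, zero_mul]
  · rw [co_mFm_succ _ _ _ hk, co_mFp]

/-- the model of `[j]^+`, `n = 2 j` -/
noncomputable def model (n : ℕ) : Rep (Wn n) :=
  Rep.ofF (mFp n) (mFm n) (mD n fun i => (-1) ^ i) (mD n fun i => ((n : ℂ) - i) / 2)
    (by
      refine LinearMap.ext fun f => co_ext n fun k hk => ?_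
      rw [LinearMap.add_apply, LinearMap.smul_apply, co_add, co_smul, Module.End.mul_apply,
        Module.End.mul_apply, co_mD, co_mFp, co_mFp, co_mD]
      push_cast; ring)
    (by
      refine LinearMap.ext fun f => co_ext n fun k hk => ?_
      rw [LinearMap.sub_apply, LinearMap.smul_apply, co_sub, co_smul,
        Module.End.mul_apply, Module.End.mul_apply, co_mD]
      rcases k with _ | k
      · rw [co_mFm_zero, co_mFm_zero]; ring
      · rw [co_mFm_succ _ _ _ hk, co_mFm_succ _ _ _ hk, co_mD]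
        push_cast; ring)
    (by
      refine LinearMap.ext fun f => co_ext n fun k hk => ?_
      rw [LinearMap.sub_apply, LinearMap.smul_apply, co_sub, co_smul,
        Module.End.mul_apply, Module.End.mul_apply, co_mD, co_FmFp _ _ _ hk, co_FpFm _ _ _ hk]
      have h := cc_add n k
      have h' : cc n k = ((n : ℂ) - k) / 4 - cc n (k + 1) := by rw [← h]; ring
      rw [h']; ring)
    (by
      refine LinearMap.ext fun f => co_ext n fun k hk => ?_
      rw [Module.End.mul_apply, co_mD, co_mD, ← mul_assoc, ← pow_add, Module.End.one_apply]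
      rw [Even.neg_one_pow ⟨k, rfl⟩, one_mul])
    (by
      refine LinearMap.ext fun f => co_ext n fun k hk => ?_
      rw [Module.End.mul_apply, Module.End.mul_apply, co_mD, co_mD, co_mD, co_mD]; ring)
    (by
      refine LinearMap.ext fun f => co_ext n fun k hk => ?_
      rw [← neg_one_smul ℂ (mFp n * (mD n fun i => (-1) ^ i)), LinearMap.smul_apply, co_smul, Module.End.mul_apply,
        Module.End.mul_apply, co_mD, co_mFp, co_mFp, co_mD, pow_succ]; ring)
    (by
      refine LinearMap.ext fun f => co_ext n fun k hk => ?_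
      rw [← neg_one_smul ℂ (mFm n * (mD n fun i => (-1) ^ i)), LinearMap.smul_apply, co_smul, Module.End.mul_apply,
        Module.End.mul_apply, co_mD]
      rcases k with _ | k
      · rw [co_mFm_zero, co_mFm_zero]; ring
      · rw [co_mFm_succ _ _ _ hk, co_mFm_succ _ _ _ hk, co_mD, pow_succ]; ring)

lemma single_mem (n : ℕ) (N : Submodule ℂ (Wn n)) (hp : ∀ w ∈ N, mFp n w ∈ N) :
    ∀ (m : ℕ) (f : Wn n), f ∈ N → (∀ k, m < k → co n f k = 0) → co n f m ≠ 0 →
      (Pi.single ⟨0, by omega⟩ 1 : Wn n) ∈ N := by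
  intro m
  induction m with
  | zero =>
    intro f hf h0 h1
    have h2 : (Pi.single ⟨0, by omega⟩ 1 : Wn n) = (co n f 0)⁻¹ • f := by
      refine co_ext n fun k hk => ?_
      rw [co_smul]
      rcases k with _ | k
      · rw [inv_mul_cancel₀ h1, co_lt _ _ _ hk, Pi.single_eq_same]
      · rw [h0 (k + 1) (Nat.succ_pos k), mul_zero, co_lt _ _ _ hk, Pi.single_eq_of_ne]
        intro h; exact absurd (congrArg Fin.val h) (by simp)
    rw [h2]
    exact N.smul_mem _ hf
  | succ m ih =>
    intro f hf h0 h1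
    have hm : m + 1 < 2 * n + 1 := by
      by_contra h; exact h1 (co_ge _ _ _ (by omega))
    refine ih (mFp n f) (hp f hf) (fun k hk => ?_) ?_
    · rw [co_mFp, h0 _ (by omega), mul_zero]
    · rw [co_mFp]
      exact mul_ne_zero (cc_ne n _ (by omega) hm) h1

lemma mFm_single (n k : ℕ) (hk : k + 1 < 2 * n + 1) :
    mFm n (Pi.single ⟨k, by omega⟩ 1) = (Pi.single ⟨k + 1, hk⟩ 1 : Wn n) := by
  refine co_ext n fun i hi => ?_
  rcases i with _ | i
  · rw [co_mFm_zero, co_lt _ _ _ hi, Pi.single_eq_of_ne]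
    intro h; exact absurd (congrArg Fin.val h) (by simp)
  · rw [co_mFm_succ _ _ _ hi, co_lt _ _ _ hi, co_lt _ _ _ (by omega), Pi.single_apply,
      Pi.single_apply]
    simp only [Fin.mk.injEq, Nat.add_right_cancel_iff]

lemma model_top (n : ℕ) : IsTop n (model n) where
  dim := by rw [Module.finrank_fin_fun]
  irr N _ _ _ hp hm _ := by
    by_cases hN : N = ⊥
    · exact Or.inl hN
    right
    obtain ⟨f, hf, hf0⟩ := (Submodule.ne_bot_iff N).1 hN
    obtain ⟨i, hi⟩ := Function.ne_iff.1 hf0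
    classical
    have hex : ∃ m, m < 2 * n + 1 ∧ co n f m ≠ 0 ∧ ∀ k, m < k → co n f k = 0 := by
      let P : ℕ → Prop := fun m => co n f m ≠ 0
      have hP : P i := by
        change co n f i ≠ 0
        rw [co_fin]; exact hi
      refine ⟨Nat.findGreatest P (2 * n), ?_, ?_, ?_⟩
      · exact Nat.lt_succ_of_le (Nat.findGreatest_le _)
      · exact Nat.findGreatest_spec (P := P) (Nat.lt_succ_iff.1 i.2) hP
      · intro k hk
        rcases lt_or_ge k (2 * n + 1) with h | h
        · by_contra h2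
          exact Nat.findGreatest_is_greatest hk (Nat.lt_succ_iff.1 h) h2
        · exact co_ge _ _ _ h
    obtain ⟨m, hm1, hm2, hm3⟩ := hex
    have h0 := single_mem n N hp m f hf hm3 hm2
    have hall : ∀ k, ∀ hk : k < 2 * n + 1, (Pi.single ⟨k, hk⟩ 1 : Wn n) ∈ N := by
      intro k
      induction k with
      | zero => intro _; exact h0
      | succ k ih =>
        intro hk
        have := hm _ (ih (by omega))
        rwa [show (model n).Fm = mFm n from rfl, mFm_single n k hk] at this
    rw [eq_top_iff]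
    intro w _
    have : w = ∑ i, w i • (Pi.single i 1 : Wn n) := by
      funext i
      simp [Finset.sum_apply, Pi.single_apply]
    rw [this]
    exact N.sum_mem fun i _ => N.smul_mem _ (hall i i.2)
  vec := by
    have hp : mFp n (Pi.single ⟨0, by omega⟩ 1) = 0 := by
      refine co_ext n fun k hk => ?_
      rw [co_mFp]
      rcases lt_or_ge (k + 1) (2 * n + 1) with h | h
      · rw [co_lt _ _ _ h, Pi.single_eq_of_ne, mul_zero]
        · rw [co_lt _ _ _ hk]; rfl
        · intro h; exact absurd (congrArg Fin.val h) (by simp)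
      · rw [co_ge _ _ _ h, mul_zero, co_lt _ _ _ hk]; rfl
    have hD : ∀ d : ℕ → ℂ, mD n d (Pi.single ⟨0, by omega⟩ 1) =
        d 0 • (Pi.single ⟨0, by omega⟩ 1 : Wn n) := fun d => by
      funext i
      change d i * (Pi.single ⟨0, by omega⟩ 1 : Wn n) i = d 0 * (Pi.single ⟨0, by omega⟩ 1 : Wn n) i
      by_cases hi : i = ⟨0, by omega⟩
      · subst hi; rfl
      · rw [Pi.single_eq_of_ne hi, mul_zero, mul_zero]
    refine ⟨Pi.single ⟨0, by omega⟩ 1, ?_, ?_, ?_, hp, ?_⟩
    · intro h
      have := congrFun h ⟨0, by omega⟩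
      rw [Pi.single_eq_same] at this
      exact one_ne_zero this
    · change mD n _ _ = _
      rw [hD, pow_zero, one_smul]
    · change mD n _ _ = _
      rw [hD, Nat.cast_zero, sub_zero]
    · change ((4 : ℂ) • (mFp n * mFp n)) _ = 0
      rw [LinearMap.smul_apply, Module.End.mul_apply, hp, map_zero, smul_zero]

end model

end Pool.Agent.Q281.OS
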