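import Mathlib
import Pool.Agent.Q281.OS.Defs
import Pool.Agent.Q281.OS.Cas
import Pool.Agent.Q281.OS.Slot
import Pool.Agent.Q281.OS.Main
import Pool.Agent.Q281.OS.Model

set_option autoImplicit false

open scoped TensorProduct

namespace Pool.Agent.Q281.OS

/-- the values of the extra character -/
noncomputable def chv : Gen → ℂ
  | .X => -4
  | .Y => -4
  | .Z => -4
  | .oX => 44
  | .oY => 44
  | .oZ => 44

/-- the character on the free algebra -/
noncomputable def chF : FA →ₐ[ℂ] ℂ := FreeAlgebra.lift ℂ chv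

lemma chF_fg (g : Gen) : chF (fg g) = chv g := FreeAlgebra.lift_ι_apply _ _

lemma chF_aeval (x : FA) (p : Polynomial ℂ) : chF (Polynomial.aeval x p) = p.eval (chF x) := by
  rw [← Polynomial.aeval_algHom_apply, Polynomial.coe_aeval_eq_eval]

lemma polyW_eval : (polyW 7).eval (-4) = 0 := by
  unfold polyW
  rw [Polynomial.eval_prod]
  refine Finset.prod_eq_zero (i := (-2 : ℤ)) (by simp) ?_
  simp; norm_num

lemma polyO_eval : (polyO 7).eval 44 = 0 := by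
  unfold polyO
  rw [Polynomial.eval_prod]
  refine Finset.prod_eq_zero (i := 13) (by simp) ?_
  simp; norm_num

lemma polyM_eval {M : Finset ℤ} (hM : (-48 : ℤ) ∈ M) : (polyM M).eval (-4 - 44) = 0 := by
  unfold polyM
  rw [Polynomial.eval_prod]
  refine Finset.prod_eq_zero hM ?_
  simp; norm_num

/-- the extra character of the quotient for `j = 7/2` -/
noncomputable def ch (M : Finset ℤ) (hM : (-48 : ℤ) ∈ M) : Ibar 7 M →ₐ[ℂ] ℂ :=
  RingQuot.liftAlgHom ℂ ⟨chF, by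
    intro x y h
    cases h with
    | cX g => simp only [map_mul, chF_fg, mul_comm]
    | cY g => simp only [map_mul, chF_fg, mul_comm]
    | cZ g => simp only [map_mul, chF_fg, mul_comm]
    | xy => simp only [map_mul, map_add, chF_fg, chv]; norm_num
    | xz => simp only [map_mul, map_add, chF_fg, chv]; norm_num
    | yz => simp only [map_mul, map_add, chF_fg, chv]; norm_num
    | o1 => simp only [chF_fg, chv]
    | o2 => simp only [chF_fg, chv]
    | pX => rw [chF_aeval, chF_fg, map_zero]; exact polyW_eval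
    | pY => rw [chF_aeval, chF_fg, map_zero]; exact polyW_eval
    | pZ => rw [chF_aeval, chF_fg, map_zero]; exact polyW_eval
    | pO => rw [chF_aeval, chF_fg, map_zero]; exact polyO_eval
    | mX => rw [chF_aeval, map_sub, chF_fg, chF_fg, map_zero]; exact polyM_eval hM
    | mY => rw [chF_aeval, map_sub, chF_fg, chF_fg, map_zero]; exact polyM_eval hM
    | mZ => rw [chF_aeval, map_sub, chF_fg, chF_fg, map_zero]; exact polyM_eval hM⟩

lemma ch_gen (M : Finset ℤ) (hM : (-48 : ℤ) ∈ M) (g : Gen) : ch M hM (gen 7 M g) = chv g := by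
  unfold ch gen
  rw [RingQuot.liftAlgHom_mkAlgHom_apply, chF_fg]

/-- the Casimir element, `c = 8/q`-normalised: here `q = 15/8` -/
noncomputable def casE {B : Type} [Ring B] [Algebra ℂ B] (x y z o : B) : B :=
  (x - (1 / 2 : ℂ) • 1) ^ 2 + (y - (1 / 2 : ℂ) • 1) ^ 2 + (z - (1 / 2 : ℂ) • 1) ^ 2 -
    ((16 : ℂ) • ((1 / 60 : ℂ) • (o + 1) - (15 / 8 : ℂ) • 1) ^ 2 + (337 / 2 : ℂ) • 1)

lemma casE_map {B C : Type} [Ring B] [Algebra ℂ B] [Ring C] [Algebra ℂ C] (f : B →ₐ[ℂ] C)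
    (x y z o : B) : f (casE x y z o) = casE (f x) (f y) (f z) (f o) := by
  simp only [casE, map_add, map_sub, map_pow, map_smul, map_one]

/-- the Casimir element vanishes in the image but not at the extra character -/
lemma core {M : Finset ℤ} (hM : (-48 : ℤ) ∈ M) {B : Type} [Ring B] [Algebra ℂ B]
    (f : Ibar 7 M →ₐ[ℂ] B) (hf : Function.Injective f) {u v w k : B}
    (hX : f (gen 7 M .X) = -((4 : ℂ) • u) + (1 / 2 : ℂ) • 1)
    (hY : f (gen 7 M .Y) = -((4 : ℂ) • v) + (1 / 2 : ℂ) • 1)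
    (hZ : f (gen 7 M .Z) = -((4 : ℂ) • w) + (1 / 2 : ℂ) • 1)
    (hO : f (gen 7 M .oX) = (32 : ℂ) • (((15 / 8 : ℂ) • (1 : B)) * ((15 / 8 : ℂ) • (1 : B)) +
      ((15 / 8 : ℂ) • (1 : B)) * k) - 1)
    (hc : u ^ 2 + v ^ 2 + w ^ 2 = k ^ 2 + (3 * (15 / 8) ^ 2 - 1 / 64 : ℂ) • 1) : False := by
  set K : Ibar 7 M := casE (gen 7 M .X) (gen 7 M .Y) (gen 7 M .Z) (gen 7 M .oX) with hK
  have hK1 : ch M hM K = -128 := by
    rw [hK, casE_map, ch_gen, ch_gen, ch_gen, ch_gen]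
    simp only [casE, chv, smul_eq_mul]
    norm_num
  have hK2 : f K = 0 := by
    rw [hK, casE_map, hX, hY, hZ, hO]
    have e1 : ∀ x : B, (-((4 : ℂ) • x) + (1 / 2 : ℂ) • 1 - (1 / 2 : ℂ) • 1) ^ 2 =
        (16 : ℂ) • x ^ 2 := fun x => by
      rw [add_sub_cancel_right, neg_sq, smul_pow]; norm_num
    have e2 : (1 / 60 : ℂ) • ((32 : ℂ) • (((15 / 8 : ℂ) • (1 : B)) * ((15 / 8 : ℂ) • (1 : B)) +
        ((15 / 8 : ℂ) • (1 : B)) * k) - 1 + 1) - (15 / 8 : ℂ) • 1 = k := by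
      rw [sub_add_cancel, smul_mul_assoc, one_mul, smul_mul_assoc, one_mul]
      module
    unfold casE
    rw [e1, e1, e1, e2, ← smul_add, ← smul_add, hc]
    module
  have hK3 : K = 0 := hf (by rw [hK2, map_zero])
  rw [hK3, map_zero] at hK1
  norm_num at hK1

/-- `Q1` fails for `j = 7/2`: the map on generators does not extend to an isomorphism -/
theorem not_conj {M : Finset ℤ} (hM : (-48 : ℤ) ∈ M) {W : Type} [AddCommGroup W] [Module ℂ W]
    (ρ : Rep W) (h : IsTop 7 ρ) : ¬ Conj 7 M ρ := by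
  rintro ⟨ψ, hψ⟩
  have hQ : QQ ρ.Fp ρ.Fm ρ.R = (15 / 8 : ℂ) • 1 := by
    rw [h.Q_eq]; norm_num
  have hcas := casimir tri_t3 ρ.RR ρ.RFp ρ.RFm hQ
  have h1 : Q1 ρ = (15 / 8 : ℂ) • 1 := by
    unfold Q1; rw [hQ, tri_t3.smul1, tri_t3.one]
  have h2 : Q2 ρ = (15 / 8 : ℂ) • 1 := by
    unfold Q2; rw [hQ, tri_t3.smul2, tri_t3.one]
  have h3 : Q3 ρ = (15 / 8 : ℂ) • 1 := by
    unfold Q3; rw [hQ, tri_t3.smul3, tri_t3.one]
  have hO : img ρ .oX = (32 : ℂ) • ((15 / 8 : ℂ) • 1 * (15 / 8 : ℂ) • 1 +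
      (15 / 8 : ℂ) • 1 * Q4 ρ) - 1 := by
    change (32 : ℂ) • (Q1 ρ * Q2 ρ + Q3 ρ * Q4 ρ) - 1 = _
    rw [h1, h2, h3]
  exact core hM ((Cent ρ).val.comp (ψ : Ibar 7 M →ₐ[ℂ] Cent ρ))
    (Subtype.val_injective.comp ψ.injective) (hψ .X) (hψ .Y) (hψ .Z) ((hψ .oX).trans hO) hcas

/-- the general set is the printed one for `j = 1/2`, and has `12 j^2 + 6 j + 1 = 169` elements
for `j = 7/2` -/
lemma sanity : Mgeneral 1 = Mprinted 1 ∧ (Mgeneral 7).card = 169 :=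
  ⟨by decide +kernel, by decide +kernel⟩

/-- both readings of `M_j` -/
theorem final : (∃ (W : Type) (_ : AddCommGroup W) (_ : Module ℂ W) (ρ : Rep W), IsTop 7 ρ) ∧
    (∀ (W : Type) [AddCommGroup W] [Module ℂ W] (ρ : Rep W), IsTop 7 ρ →
      (∀ M : Finset ℤ, (-48 : ℤ) ∈ M → ¬ Conj 7 M ρ) ∧
        ¬ Conj 7 (Mprinted 7) ρ ∧ ¬ Conj 7 (Mgeneral 7) ρ) ∧
    Mgeneral 1 = Mprinted 1 ∧ (Mgeneral 7).card = 169 :=
  ⟨⟨Wn 7, inferInstance, inferInstance, model 7, model_top 7⟩, fun _ _ _ ρ h =>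
    ⟨fun _ hM => not_conj hM ρ h, not_conj (by decide +kernel) ρ h,
      not_conj (by decide +kernel) ρ h⟩, sanity⟩

end Pool.Agent.Q281.OS
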